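import Pool.Agent.Lib.SymModel.Axioms

/-!
# Two-valued models from the symmetric Boolean-valued model

A countable set of names closed under witnesses together with a sufficiently generic descending
sequence of conditions gives a two-valued structure whose theory is forced.
-/

set_option autoImplicit false

namespace Pool.Agent.Lib.SymModel

open Pool.Agent.MPa4e7db Pool.Agent.MP_5db68c_lc

universe u

deriving instance Countable for Fml

variable {B : Type u} [CompleteBooleanAlgebra B]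

/-- Existence of generic sequences for countably many tasks. -/
theorem exists_generic {K : Type*} [Countable K] (R : K → B → Prop)
    (hR : ∀ k p, p ≠ ⊥ → ∃ r ≤ p, r ≠ ⊥ ∧ R k r) (p0 : B) (hp0 : p0 ≠ ⊥) :
    ∃ q : ℕ → B, q 0 = p0 ∧ Antitone q ∧ (∀ n, q n ≠ ⊥) ∧ ∀ k, ∃ n, R k (q n) := by
  classical
  rcases isEmpty_or_nonempty K with hK | hK
  · exact ⟨fun _ => p0, rfl, fun _ _ _ => le_rfl, fun _ => hp0, fun k => (hK.false k).elim⟩
  obtain ⟨f, hf⟩ := exists_surjective_nat K
  choose! r hr1 hr2 hr3 using hR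
  let q : ℕ → B := fun n => Nat.rec p0 (fun n p => r (f n) p) n
  have hq0 : q 0 = p0 := rfl
  have hqs : ∀ n, q (n + 1) = r (f n) (q n) := fun n => rfl
  have hne : ∀ n, q n ≠ ⊥ := by
    intro n
    induction n with
    | zero => exact hp0
    | succ n ih => rw [hqs]; exact hr2 _ _ ih
  refine ⟨q, hq0, antitone_nat_of_succ_le fun n => ?_, hne, fun k => ?_⟩
  · rw [hqs]
    exact hr1 _ _ (hne n)
  · obtain ⟨n, rfl⟩ := hf k
    refine ⟨n + 1, ?_⟩
    rw [hqs]
    exact hr3 _ _ (hne n)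

variable (S : SymSys B)

/-- A countable family of names with a generic sequence. -/
structure GenData where
  /-- the names -/
  e : ℕ → NS S
  /-- the generic sequence -/
  q : ℕ → B
  anti : Antitone q
  ne_bot : ∀ n, q n ≠ ⊥
  decide : ∀ (φ : Fml) (v : ℕ → ℕ), ∃ n, q n ≤ val φ (fun i => e (v i)) ∨
    q n ≤ (val φ (fun i => e (v i)))ᶜ
  wit : ∀ (φ : Fml) (v : ℕ → ℕ) (n : ℕ), q n ≤ (⨆ x : NS S, val φ (push x fun i => e (v i))) →
    ∃ x m, q m ≤ val φ (push (e x) fun i => e (v i))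
  elt : ∀ (x a n : ℕ), q n ≤ mN (e x) (e a) → ∃ (j : idx (e a).1) (m : ℕ),
    q m ≤ vl (e a).1 j ⊓ eqB (e x).1 (SymModel.elt (e a).1 j)

variable {S}

/-- The environment given by a list. -/
def env (d : NS S) (l : List (NS S)) : ℕ → NS S := fun i => l.getD i d

theorem env_ofFn (d : NS S) (v : ℕ → NS S) (n i : ℕ) (hi : i < n) :
    env d (List.ofFn fun j : Fin n => v j) i = v i := by
  unfold env
  rw [List.getD_eq_getElem?_getD, List.getElem?_ofFn, dif_pos hi]
  rfl

/-- One closure step. -/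
def clStep (D : Set B) (w : Fml → B → List (NS S) → NS S) (T : Set (NS S)) : Set (NS S) :=
  T ∪ ⋃ φ : Fml, ⋃ p ∈ D, (fun l => w φ p l) '' {l : List (NS S) | ∀ x ∈ l, x ∈ T}

theorem clStep_countable {D : Set B} (hD : D.Countable) (w : Fml → B → List (NS S) → NS S)
    {T : Set (NS S)} (hT : T.Countable) : (clStep D w T).Countable := by
  refine hT.union (Set.countable_iUnion fun φ => hD.biUnion fun p _ => Set.Countable.image ?_ _)
  have : Countable T := hT.to_subtype
  refine (Set.countable_range (fun l : List T => l.map Subtype.val)).mono ?_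
  intro l hl
  refine ⟨l.attach.map fun x => ⟨x.1, hl x.1 x.2⟩, ?_⟩
  change List.map Subtype.val (l.attach.map fun x => (⟨x.1, hl x.1 x.2⟩ : T)) = l
  rw [List.map_map]
  exact List.attach_map_subtype_val l

/-- Existence of generic data. -/
theorem exists_genData (D : Set B) (hD : D.Countable) (hdense : ∀ b : B, b ≠ ⊥ → ∃ p ∈ D, p ≠ ⊥ ∧
    p ≤ b) (p0 : B) (hp0 : p0 ≠ ⊥) (f : ℕ → NS S) :
    ∃ G : GenData S, G.q 0 = p0 ∧ ∀ n, ∃ m, G.e m = f n := by
  classical
  set d : NS S := f 0 with hd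
  let w : Fml → B → List (NS S) → NS S := fun φ p l =>
    if h : ∃ x : NS S, p ⊓ val φ (push x (env d l)) ≠ ⊥ then h.choose else d
  have hw : ∀ φ p l, (∃ x : NS S, p ⊓ val φ (push x (env d l)) ≠ ⊥) →
      p ⊓ val φ (push (w φ p l) (env d l)) ≠ ⊥ := by
    intro φ p l h
    simp only [w]
    rw [dif_pos h]
    exact h.choose_spec
  let Tn : ℕ → Set (NS S) := fun n => Nat.rec (Set.range f) (fun _ T => clStep D w T) n
  have hTs : ∀ n, Tn (n + 1) = clStep D w (Tn n) := fun n => rfl
  have hTc : ∀ n, (Tn n).Countable := by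
    intro n
    induction n with
    | zero => exact Set.countable_range f
    | succ n ih =>
      rw [hTs]
      exact clStep_countable hD w ih
  have hTmono : Monotone Tn := by
    refine monotone_nat_of_le_succ fun n => ?_
    rw [hTs]
    exact Set.subset_union_left
  let T : Set (NS S) := ⋃ n, Tn n
  have hTcount : T.Countable := Set.countable_iUnion hTc
  have hfT : ∀ n, f n ∈ T := fun n => Set.mem_iUnion.mpr ⟨0, ⟨n, rfl⟩⟩
  have hwT : ∀ φ, ∀ p ∈ D, ∀ l : List (NS S), (∀ x ∈ l, x ∈ T) → w φ p l ∈ T := by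
    intro φ p hp l hl
    have h1 : ∃ n, ∀ x ∈ l, x ∈ Tn n := by
      induction l with
      | nil => exact ⟨0, by simp⟩
      | cons a l ih =>
        obtain ⟨n, hn⟩ := ih (fun x hx => hl x (List.mem_cons_of_mem _ hx))
        obtain ⟨m, hm⟩ := Set.mem_iUnion.mp (hl a List.mem_cons_self)
        refine ⟨max n m, fun x hx => ?_⟩
        rcases List.mem_cons.mp hx with rfl | hx
        · exact hTmono (le_max_right n m) hm
        · exact hTmono (le_max_left n m) (hn x hx)
    obtain ⟨n, hn⟩ := h1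
    refine Set.mem_iUnion.mpr ⟨n + 1, ?_⟩
    rw [hTs]
    refine Or.inr ?_
    refine Set.mem_iUnion.mpr ⟨φ, Set.mem_iUnion₂.mpr ⟨p, hp, ⟨l, hn, rfl⟩⟩⟩
  have : Countable T := hTcount.to_subtype
  have hTne : Nonempty T := ⟨⟨d, hfT 0⟩⟩
  obtain ⟨g, hg⟩ := exists_surjective_nat T
  -- the tasks
  let K : Type _ := (Fml × List T) ⊕ (Fml × List T) ⊕ (T × T)
  let en : List T → ℕ → NS S := fun l => env d (l.map Subtype.val)
  let R : K → B → Prop := fun k r => match k with
    | Sum.inl (φ, l) => r ≤ val φ (en l) ∨ r ≤ (val φ (en l))ᶜ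
    | Sum.inr (Sum.inl (φ, l)) => r ≤ (⨆ x : NS S, val φ (push x (en l)))ᶜ ∨
        ∃ x : T, r ≤ val φ (push x.1 (en l))
    | Sum.inr (Sum.inr (x, a)) => r ≤ (mN x.1 a.1)ᶜ ∨
        ∃ j : idx a.1.1, r ≤ vl a.1.1 j ⊓ eqB x.1.1 (SymModel.elt a.1.1 j)
  have hdec : ∀ (b p : B), p ≠ ⊥ → p ⊓ b ≠ ⊥ ∨ p ≤ bᶜ := by
    intro b p _
    by_cases h : p ⊓ b = ⊥
    · exact Or.inr (le_compl_iff_disjoint_right.mpr (disjoint_iff.mpr h))
    · exact Or.inl h
  have hR : ∀ k p, p ≠ ⊥ → ∃ r ≤ p, r ≠ ⊥ ∧ R k r := by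
    intro k p hp
    rcases k with ⟨φ, l⟩ | ⟨φ, l⟩ | ⟨x, a⟩
    · rcases hdec (val φ (en l)) p hp with h | h
      · exact ⟨_, inf_le_left, h, Or.inl inf_le_right⟩
      · exact ⟨p, le_rfl, hp, Or.inr h⟩
    · rcases hdec (⨆ x : NS S, val φ (push x (en l))) p hp with h | h
      · obtain ⟨r, hrD, hr, hrle⟩ := hdense _ h
        have h1 : ∃ x : NS S, r ⊓ val φ (push x (env d (l.map Subtype.val))) ≠ ⊥ := by
          by_contra hcon
          push Not at hcon
          apply hr
          have h2 : r = r ⊓ ⨆ x : NS S, val φ (push x (en l)) :=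
            (inf_eq_left.mpr (hrle.trans inf_le_right)).symm
          rw [h2, inf_iSup_eq, iSup_eq_bot]
          exact hcon
        have h2 := hw _ _ _ h1
        refine ⟨_, inf_le_left.trans (hrle.trans inf_le_left), h2, Or.inr ⟨⟨_, hwT φ r hrD _ ?_⟩,
          inf_le_right⟩⟩
        intro x hx
        obtain ⟨y, _, rfl⟩ := List.mem_map.mp hx
        exact y.2
      · exact ⟨p, le_rfl, hp, Or.inl h⟩
    · rcases hdec (mN x.1 a.1) p hp with h | h
      · have h1 : mN x.1 a.1 = ⨆ j : idx a.1.1, vl a.1.1 j ⊓ eqB x.1.1 (SymModel.elt a.1.1 j) :=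
          memB_eq _ _
        rw [h1, inf_iSup_eq] at h
        have h2 : ∃ j : idx a.1.1, p ⊓ (vl a.1.1 j ⊓ eqB x.1.1 (SymModel.elt a.1.1 j)) ≠ ⊥ := by
          by_contra hcon
          push Not at hcon
          exact h (iSup_eq_bot.mpr hcon)
        obtain ⟨j, hj⟩ := h2
        exact ⟨_, inf_le_left, hj, Or.inr ⟨j, inf_le_right⟩⟩
      · exact ⟨p, le_rfl, hp, Or.inl h⟩
  obtain ⟨q, hq0, hanti, hne, hq⟩ := exists_generic R hR p0 hp0
  -- lists from assignments
  have hlist : ∀ (v : ℕ → ℕ) (n i : ℕ), i < n →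
      en (List.ofFn fun j : Fin n => g (v j)) i = (g (v i)).1 := by
    intro v n i hi
    simp only [en]
    rw [List.map_ofFn]
    exact env_ofFn d (fun i => (g (v i)).1) n i hi
  refine ⟨⟨fun n => (g n).1, q, hanti, hne, ?_, ?_, ?_⟩, hq0, ?_⟩
  · intro φ v
    obtain ⟨n, hn⟩ := hq (Sum.inl (φ, List.ofFn fun j : Fin (bd φ) => g (v j)))
    refine ⟨n, ?_⟩
    have h1 : val φ (en (List.ofFn fun j : Fin (bd φ) => g (v j))) =
        val φ (fun i => (g (v i)).1) := by
      apply val_eq_of_top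
      intro i hi
      rw [hlist v _ i hi]
      exact eqB_refl _
    change q n ≤ val φ (en (List.ofFn fun j : Fin (bd φ) => g (v j))) ∨
      q n ≤ (val φ (en (List.ofFn fun j : Fin (bd φ) => g (v j))))ᶜ at hn
    rwa [h1] at hn
  · intro φ v n hn
    obtain ⟨m, hm⟩ := hq (Sum.inr (Sum.inl (φ, List.ofFn fun j : Fin (bd φ) => g (v j))))
    have h1 : ∀ x : NS S, val φ (push x (en (List.ofFn fun j : Fin (bd φ) => g (v j)))) =
        val φ (push x fun i => (g (v i)).1) := by
      intro x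
      apply val_eq_of_top
      intro i hi
      cases i with
      | zero => exact eqB_refl _
      | succ i =>
        rw [push_succ, push_succ, hlist v _ i (by omega)]
        exact eqB_refl _
    change q m ≤ (⨆ x : NS S, val φ (push x (en (List.ofFn fun j : Fin (bd φ) => g (v j)))))ᶜ ∨
        ∃ x : T, q m ≤ val φ (push x.1 (en (List.ofFn fun j : Fin (bd φ) => g (v j)))) at hm
    simp only [h1] at hm
    rcases hm with hm | ⟨x, hm⟩
    · exfalso
      apply hne (max n m)
      rw [eq_bot_iff]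
      exact compl_mp ((hanti (le_max_right n m)).trans hm) ((hanti (le_max_left n m)).trans hn)
    · obtain ⟨k, rfl⟩ := hg x
      exact ⟨k, m, hm⟩
  · intro x a n hn
    obtain ⟨m, hm⟩ := hq (Sum.inr (Sum.inr (g x, g a)))
    rcases hm with hm | ⟨j, hm⟩
    · exfalso
      apply hne (max n m)
      rw [eq_bot_iff]
      exact compl_mp ((hanti (le_max_right n m)).trans hm) ((hanti (le_max_left n m)).trans hn)
    · exact ⟨j, m, hm⟩
  · intro n
    obtain ⟨m, hm⟩ := hg ⟨f n, hfT n⟩
    exact ⟨m, congrArg Subtype.val hm⟩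

/-! ### The two-valued model -/

namespace GenData

variable (G : GenData S)

/-- Truth with respect to the generic sequence. -/
def Tr (b : B) : Prop := ∃ n, G.q n ≤ b

theorem Tr.mono {G : GenData S} {a b : B} (h : G.Tr a) (hab : a ≤ b) : G.Tr b := by
  obtain ⟨n, hn⟩ := h
  exact ⟨n, hn.trans hab⟩

theorem Tr_top : G.Tr ⊤ := ⟨0, le_top⟩

theorem not_Tr_bot : ¬ G.Tr ⊥ := by
  rintro ⟨n, hn⟩
  exact G.ne_bot n (le_bot_iff.mp hn)

theorem Tr_inf {a b : B} : G.Tr (a ⊓ b) ↔ G.Tr a ∧ G.Tr b := by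
  constructor
  · intro h
    exact ⟨h.mono inf_le_left, h.mono inf_le_right⟩
  · rintro ⟨⟨n, hn⟩, ⟨m, hm⟩⟩
    exact ⟨max n m, le_inf ((G.anti (le_max_left n m)).trans hn)
      ((G.anti (le_max_right n m)).trans hm)⟩

theorem not_Tr_compl {a : B} (h : G.Tr a) : ¬ G.Tr aᶜ := by
  intro h2
  have := G.Tr_inf.mpr ⟨h, h2⟩
  rw [inf_compl_self] at this
  exact G.not_Tr_bot this

theorem Tr_mp {a b : B} (h : G.Tr (a ⇨ b)) (ha : G.Tr a) : G.Tr b :=
  (G.Tr_inf.mpr ⟨h, ha⟩).mono himp_inf_le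

/-- The equivalence relation on indices. -/
def setoid : Setoid ℕ where
  r a b := G.Tr (eN (G.e a) (G.e b))
  iseqv := by
    refine ⟨fun a => ?_, fun {a b} h => ?_, fun {a b c} h1 h2 => ?_⟩
    · have : eN (G.e a) (G.e a) = ⊤ := eqB_refl _
      rw [this]
      exact G.Tr_top
    · exact h.mono (le_of_eq (eqB_symm _ _))
    · exact (G.Tr_inf.mpr ⟨h1, h2⟩).mono (eqB.trans inf_le_left inf_le_right)

/-- The model. -/
def Mdl : Type := Quotient G.setoid

/-- The class of a name. -/
def cls (n : ℕ) : G.Mdl := Quotient.mk G.setoid n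

instance : Membership G.Mdl G.Mdl where
  mem a x := Quotient.liftOn₂ x a (fun n m => G.Tr (mN (G.e n) (G.e m))) (by
    intro n m n' m' h1 h2
    have h1' : G.Tr (eN (G.e n) (G.e n')) := h1
    have h2' : G.Tr (eN (G.e m) (G.e m')) := h2
    apply propext
    constructor
    · intro h
      refine (G.Tr_inf.mpr ⟨h, G.Tr_inf.mpr ⟨h1', h2'⟩⟩).mono ?_
      exact memB_congr_left (inf_le_right.trans inf_le_left)
        (memB_congr_right (inf_le_right.trans inf_le_right) inf_le_left)
    · intro h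
      refine (G.Tr_inf.mpr ⟨h, G.Tr_inf.mpr ⟨h1', h2'⟩⟩).mono ?_
      exact memB_congr_left (eqB.symm (inf_le_right.trans inf_le_left))
        (memB_congr_right (eqB.symm (inf_le_right.trans inf_le_right)) inf_le_left))

theorem cls_mem {n m : ℕ} : G.cls n ∈ G.cls m ↔ G.Tr (mN (G.e n) (G.e m)) := Iff.rfl

theorem cls_eq {n m : ℕ} : G.cls n = G.cls m ↔ G.Tr (eN (G.e n) (G.e m)) :=
  Quotient.eq (r := G.setoid)

theorem cls_surj (x : G.Mdl) : ∃ n, G.cls n = x := Quotient.exists_rep x

/-- A name for every element of the model. -/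
noncomputable def rep (x : G.Mdl) : ℕ := (G.cls_surj x).choose

theorem cls_rep (x : G.Mdl) : G.cls (G.rep x) = x := (G.cls_surj x).choose_spec

/-- The fundamental theorem. -/
theorem sat_iff (φ : Fml) : ∀ v : ℕ → ℕ,
    Sat φ (fun i => G.cls (v i)) ↔ G.Tr (val φ fun i => G.e (v i)) := by
  induction φ with
  | mem i j => intro v; exact Iff.rfl
  | eq i j => intro v; exact G.cls_eq
  | neg φ ih =>
    intro v
    rw [Sat_neg, ih, val_neg]
    constructor
    · intro h
      obtain ⟨n, hn | hn⟩ := G.decide φ v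
      · exact absurd ⟨n, hn⟩ h
      · exact ⟨n, hn⟩
    · intro h h2
      exact G.not_Tr_compl h2 h
  | and φ ψ ih1 ih2 =>
    intro v
    rw [Sat_and, ih1, ih2, val_and, G.Tr_inf]
  | all φ ih =>
    intro v
    rw [Sat_all, val_all]
    have hpush : ∀ x : ℕ, (push (G.cls x) fun i => G.cls (v i)) =
        fun i => G.cls (push x v i) := by
      intro x
      funext i
      cases i <;> rfl
    have hpush2 : ∀ x : ℕ, (push (G.e x) fun i => G.e (v i)) = fun i => G.e (push x v i) := by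
      intro x
      funext i
      cases i <;> rfl
    constructor
    · intro h
      by_contra hcon
      obtain ⟨n, hn | hn⟩ := G.decide (.all φ) v
      · exact hcon ⟨n, hn⟩
      · rw [val_all, compl_iInf] at hn
        have h1 : G.q n ≤ ⨆ x : NS S, val (.neg φ) (push x fun i => G.e (v i)) := hn
        obtain ⟨x, m, hm⟩ := G.wit (.neg φ) v n h1
        have h2 := h (G.cls x)
        rw [hpush, ih] at h2
        rw [hpush2] at hm
        exact G.not_Tr_compl h2 ⟨m, hm⟩
    · intro h x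
      obtain ⟨x, rfl⟩ := G.cls_surj x
      rw [hpush, ih]
      rw [← hpush2]
      exact h.mono (iInf_le _ _)

/-- The fundamental theorem, for assignments in the model. -/
theorem sat_iff' (φ : Fml) (v : ℕ → G.Mdl) :
    Sat φ v ↔ G.Tr (val φ fun i => G.e (G.rep (v i))) := by
  rw [← G.sat_iff]
  have : v = fun i => G.cls (G.rep (v i)) := by
    funext i
    exact (G.cls_rep _).symm
  rw [← this]

end GenData

end Pool.Agent.Lib.SymModel
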