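import Mathlib

/-!
# The complete Boolean algebra of regular sets of conditions
-/

set_option autoImplicit false

namespace Pool.Agent.Lib.SymModel

universe u

/-- A regular set of conditions. -/
@[ext]
structure RO (P : Type u) [Preorder P] where
  /-- the set of conditions -/
  carrier : Set P
  reg : ∀ p, p ∈ carrier ↔ ∀ q ≤ p, ∃ r ≤ q, r ∈ carrier

variable {P : Type u} [Preorder P]

namespace RO

instance : SetLike (RO P) P where
  coe := RO.carrier
  coe_injective := fun a b h => by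
    cases a
    cases b
    congr

theorem down (U : RO P) {p q : P} (hp : p ∈ U) (hq : q ≤ p) : q ∈ U := by
  have h1 := (U.reg p).mp hp
  exact (U.reg q).mpr fun r hr => h1 r (hr.trans hq)

theorem mem_of_dense (U : RO P) {p : P} (h : ∀ q ≤ p, ∃ r ≤ q, r ∈ U) : p ∈ U := (U.reg p).mpr h

/-- The regular set generated by a set. -/
def mkOf (s : Set P) (hs : ∀ p ∈ s, ∀ q ≤ p, q ∈ s) : RO P where
  carrier := {p | ∀ q ≤ p, ∃ r ≤ q, r ∈ s}
  reg p := by
    constructor
    · intro h q hq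
      obtain ⟨r, hr, hrs⟩ := h q hq
      exact ⟨r, hr, fun t ht => ⟨t, le_rfl, hs r hrs t ht⟩⟩
    · intro h q hq
      obtain ⟨r, hr, hrs⟩ := h q hq
      obtain ⟨t, ht, hts⟩ := hrs r le_rfl
      exact ⟨t, ht.trans hr, hts⟩

theorem mem_mkOf {s : Set P} {hs : ∀ p ∈ s, ∀ q ≤ p, q ∈ s} {p : P} :
    p ∈ mkOf s hs ↔ ∀ q ≤ p, ∃ r ≤ q, r ∈ s := Iff.rfl

instance : PartialOrder (RO P) where
  le U V := ∀ p, p ∈ U → p ∈ V
  le_refl U p hp := hp
  le_trans U V W h1 h2 p hp := h2 p (h1 p hp)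
  le_antisymm U V h1 h2 := SetLike.ext fun p => ⟨h1 p, h2 p⟩

theorem le_def {U V : RO P} : U ≤ V ↔ ∀ p, p ∈ U → p ∈ V := Iff.rfl

instance : CompleteLattice (RO P) where
  sup U V := mkOf {p | p ∈ U ∨ p ∈ V} (fun p hp q hq => by
    rcases hp with h | h
    · exact Or.inl (U.down h hq)
    · exact Or.inr (V.down h hq))
  inf U V :=
    { carrier := {p | p ∈ U ∧ p ∈ V}
      reg := fun p => by
        constructor
        · intro h q hq
          exact ⟨q, le_rfl, U.down h.1 hq, V.down h.2 hq⟩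
        · intro h
          refine ⟨U.mem_of_dense fun q hq => ?_, V.mem_of_dense fun q hq => ?_⟩
          · obtain ⟨r, hr, h1⟩ := h q hq
            exact ⟨r, hr, h1.1⟩
          · obtain ⟨r, hr, h1⟩ := h q hq
            exact ⟨r, hr, h1.2⟩ }
  sSup s := mkOf {p | ∃ U ∈ s, p ∈ U} (fun p hp q hq => by
    obtain ⟨U, hU, h⟩ := hp
    exact ⟨U, hU, U.down h hq⟩)
  sInf s :=
    { carrier := {p | ∀ U ∈ s, p ∈ U}
      reg := fun p => by
        constructor
        · intro h q hq
          exact ⟨q, le_rfl, fun U hU => U.down (h U hU) hq⟩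
        · intro h U hU
          refine U.mem_of_dense fun q hq => ?_
          obtain ⟨r, hr, h1⟩ := h q hq
          exact ⟨r, hr, h1 U hU⟩ }
  top :=
    { carrier := Set.univ
      reg := fun p => ⟨fun _ q _ => ⟨q, le_rfl, trivial⟩, fun _ => trivial⟩ }
  bot :=
    { carrier := ∅
      reg := fun p => ⟨fun h => h.elim, fun h => by
        obtain ⟨r, _, hr⟩ := h p le_rfl
        exact hr⟩ }
  le_sup_left U V p hp q hq := ⟨q, le_rfl, Or.inl (U.down hp hq)⟩
  le_sup_right U V p hp q hq := ⟨q, le_rfl, Or.inr (V.down hp hq)⟩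
  sup_le U V W h1 h2 p hp := W.mem_of_dense fun q hq => by
    obtain ⟨r, hr, h | h⟩ := hp q hq
    · exact ⟨r, hr, h1 r h⟩
    · exact ⟨r, hr, h2 r h⟩
  inf_le_left U V p hp := hp.1
  inf_le_right U V p hp := hp.2
  le_inf U V W h1 h2 p hp := ⟨h1 p hp, h2 p hp⟩
  le_top U p _ := trivial
  bot_le U p hp := hp.elim
  isLUB_sSup s := ⟨fun U hU p hp q hq => ⟨q, le_rfl, U, hU, U.down hp hq⟩,
    fun V hV p hp => V.mem_of_dense fun q hq => by
      obtain ⟨r, hr, U, hU, h⟩ := hp q hq
      exact ⟨r, hr, hV hU r h⟩⟩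
  isGLB_sInf s := ⟨fun U hU p hp => hp U hU, fun V hV p hp U hU => hV hU p hp⟩

theorem mem_inf {U V : RO P} {p : P} : p ∈ U ⊓ V ↔ p ∈ U ∧ p ∈ V := Iff.rfl

theorem mem_sup {U V : RO P} {p : P} : p ∈ U ⊔ V ↔ ∀ q ≤ p, ∃ r ≤ q, r ∈ U ∨ r ∈ V := Iff.rfl

theorem mem_top (p : P) : p ∈ (⊤ : RO P) := trivial

theorem notMem_bot (p : P) : p ∉ (⊥ : RO P) := fun h => h.elim

/-- The complement. -/
def cpl (U : RO P) : RO P where
  carrier := {p | ∀ q ≤ p, q ∉ U}
  reg p := by
    constructor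
    · intro h q hq
      exact ⟨q, le_rfl, fun r hr => h r (hr.trans hq)⟩
    · intro h q hq hqU
      obtain ⟨r, hr, h1⟩ := h q hq
      exact h1 r le_rfl (U.down hqU hr)

instance : BooleanAlgebra (RO P) where
  compl := cpl
  le_sup_inf U V W p hp := by
    intro q hq
    obtain ⟨r, hr, h1⟩ := hp.1 q hq
    rcases h1 with h1 | h1
    · exact ⟨r, hr, Or.inl h1⟩
    · obtain ⟨s, hs, h2⟩ := hp.2 r (hr.trans hq)
      rcases h2 with h2 | h2
      · exact ⟨s, hs.trans hr, Or.inl h2⟩
      · exact ⟨s, hs.trans hr, Or.inr ⟨V.down h1 hs, h2⟩⟩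
  inf_compl_le_bot U p hp := (hp.2 p le_rfl hp.1).elim
  top_le_sup_compl U p _ := by
    intro q _
    by_cases h : ∃ r ≤ q, r ∈ U
    · obtain ⟨r, hr, h⟩ := h
      exact ⟨r, hr, Or.inl h⟩
    · push Not at h
      exact ⟨q, le_rfl, Or.inr h⟩
  le_top U p _ := trivial
  bot_le U p hp := hp.elim

instance : CompleteBooleanAlgebra (RO P) where

theorem mem_compl {U : RO P} {p : P} : p ∈ Uᶜ ↔ ∀ q ≤ p, q ∉ U := Iff.rfl

theorem mem_himp {U V : RO P} {p : P} : p ∈ U ⇨ V ↔ ∀ q ≤ p, q ∈ U → q ∈ V := by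
  have h1 : ∀ (p : P) (W : RO P), p ∈ W ↔ mkOf {q | q ≤ p} (fun a ha b hb => hb.trans ha) ≤ W := by
    intro p W
    constructor
    · intro hp q hq
      refine W.mem_of_dense fun r hr => ?_
      obtain ⟨s, hs, h⟩ := hq r hr
      exact ⟨s, hs, W.down hp h⟩
    · intro h
      exact h p fun q hq => ⟨q, le_rfl, hq⟩
  rw [h1, le_himp_iff]
  constructor
  · intro h q hq hqU
    exact h q ⟨fun r hr => ⟨r, le_rfl, hr.trans hq⟩, hqU⟩
  · intro h q hq
    refine V.mem_of_dense fun r hr => ?_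
    obtain ⟨s, hs, h2⟩ := hq.1 r hr
    exact ⟨s, hs, h s h2 (U.down hq.2 (hs.trans hr))⟩

theorem mem_iSup {ι : Sort*} {U : ι → RO P} {p : P} :
    p ∈ ⨆ i, U i ↔ ∀ q ≤ p, ∃ r ≤ q, ∃ i, r ∈ U i := by
  constructor
  · intro h q hq
    obtain ⟨r, hr, V, ⟨i, rfl⟩, h⟩ := h q hq
    exact ⟨r, hr, i, h⟩
  · intro h
    refine (⨆ i, U i).mem_of_dense fun q hq => ?_
    obtain ⟨r, hr, i, h⟩ := h q hq
    exact ⟨r, hr, le_iSup U i r h⟩

theorem mem_iInf {ι : Sort*} {U : ι → RO P} {p : P} : p ∈ ⨅ i, U i ↔ ∀ i, p ∈ U i := by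
  constructor
  · intro h i
    exact iInf_le U i p h
  · intro h V hV
    obtain ⟨i, rfl⟩ := hV
    exact h i

theorem ne_bot_iff {U : RO P} : U ≠ ⊥ ↔ ∃ p, p ∈ U := by
  constructor
  · intro h
    by_contra hcon
    push Not at hcon
    exact h (le_antisymm (fun p hp => (hcon p hp).elim) bot_le)
  · rintro ⟨p, hp⟩ rfl
    exact notMem_bot p hp

/-- The principal regular set. -/
def prin (p : P) : RO P := mkOf {q | q ≤ p} (fun _ ha _ hb => hb.trans ha)

theorem self_mem_prin (p : P) : p ∈ prin p := fun q hq => ⟨q, le_rfl, hq⟩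

theorem prin_le_iff {p : P} {U : RO P} : prin p ≤ U ↔ p ∈ U := by
  constructor
  · intro h
    exact h p (self_mem_prin p)
  · intro hp q hq
    refine U.mem_of_dense fun r hr => ?_
    obtain ⟨s, hs, h⟩ := hq r hr
    exact ⟨s, hs, U.down hp h⟩

/-- An order automorphism of the conditions acts on the regular sets. -/
def mapIso (g : P ≃o P) : RO P ≃o RO P where
  toFun U :=
    { carrier := {p | g.symm p ∈ U}
      reg := fun p => by
        constructor
        · intro h q hq
          exact ⟨q, le_rfl, U.down h (g.symm.monotone hq)⟩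
        · intro h
          refine U.mem_of_dense fun q hq => ?_
          obtain ⟨r, hr, h1⟩ := h (g q) (by
            rw [← g.apply_symm_apply p]
            exact g.monotone hq)
          refine ⟨g.symm r, ?_, h1⟩
          rw [← g.symm_apply_apply q]
          exact g.symm.monotone hr }
  invFun U :=
    { carrier := {p | g p ∈ U}
      reg := fun p => by
        constructor
        · intro h q hq
          exact ⟨q, le_rfl, U.down h (g.monotone hq)⟩
        · intro h
          refine U.mem_of_dense fun q hq => ?_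
          obtain ⟨r, hr, h1⟩ := h (g.symm q) (by
            rw [← g.symm_apply_apply p]
            exact g.symm.monotone hq)
          refine ⟨g r, ?_, h1⟩
          rw [← g.apply_symm_apply q]
          exact g.monotone hr }
  left_inv U := by
    refine SetLike.ext fun p => ?_
    change g.symm (g p) ∈ U ↔ p ∈ U
    rw [g.symm_apply_apply]
  right_inv U := by
    refine SetLike.ext fun p => ?_
    change g (g.symm p) ∈ U ↔ p ∈ U
    rw [g.apply_symm_apply]
  map_rel_iff' := by
    intro U V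
    constructor
    · intro h p hp
      have h1 : g.symm (g p) ∈ V := h (g p) (by
        change g.symm (g p) ∈ U
        rwa [g.symm_apply_apply])
      rwa [g.symm_apply_apply] at h1
    · intro h p hp
      exact h _ hp

theorem mem_mapIso {g : P ≃o P} {U : RO P} {p : P} : p ∈ mapIso g U ↔ g.symm p ∈ U := Iff.rfl

end RO

end Pool.Agent.Lib.SymModel
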