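import Pool.Agent.Lib.MP_a4e7db_lc.Omega
import Pool.Agent.Lib.MP_5db68c_lc.Logic

/-!
# Symmetric systems and hereditarily symmetric names

`B` is a complete Boolean algebra with a group `Γ` of automorphisms and a normal filter of
subgroups of `Γ`. The hereditarily symmetric `B`-names form a Boolean-valued model of ZF.
-/

set_option autoImplicit false

namespace Pool.Agent.Lib.SymModel

open Pool.Agent.MPa4e7db

universe u

/-- A symmetric system over `B`: a group acting on `B` and a normal filter of subgroups. -/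
structure SymSys (B : Type u) [CompleteBooleanAlgebra B] where
  /-- the group -/
  Γ : Type u
  [grp : Group Γ]
  /-- the action -/
  act : Γ → (B ≃o B)
  act_one : ∀ b, act 1 b = b
  act_mul : ∀ g h b, act (g * h) b = act g (act h b)
  /-- the normal filter of subgroups -/
  good : Subgroup Γ → Prop
  good_top : good ⊤
  good_inf : ∀ H K, good H → good K → good (H ⊓ K)
  good_mono : ∀ H K, H ≤ K → good H → good K
  good_conj : ∀ (g : Γ) (H : Subgroup Γ), good H → good (H.map (MulAut.conj g).toMonoidHom)

attribute [instance] SymSys.grp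

variable {B : Type u} [CompleteBooleanAlgebra B] (S : SymSys B)

/-- The action of the group on names. -/
def smulN (g : S.Γ) : BName B → BName B
  | BName.mk ι x b => BName.mk ι (fun i => smulN g (x i)) (fun i => S.act g (b i))

theorem smulN_mk (g : S.Γ) (ι : Type u) (x : ι → BName B) (b : ι → B) :
    smulN S g (BName.mk ι x b) = BName.mk ι (fun i => smulN S g (x i)) (fun i => S.act g (b i)) :=
  rfl

theorem smulN_one (x : BName B) : smulN S 1 x = x := by
  induction x with
  | mk ι x b ih =>
    rw [smulN_mk]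
    congr 1
    · funext i
      exact ih i
    · funext i
      exact S.act_one _

theorem smulN_mul (g h : S.Γ) (x : BName B) : smulN S (g * h) x = smulN S g (smulN S h x) := by
  induction x with
  | mk ι x b ih =>
    rw [smulN_mk, smulN_mk, smulN_mk]
    congr 1
    · funext i
      exact ih i
    · funext i
      exact S.act_mul _ _ _

theorem smulN_inv_smulN (g : S.Γ) (x : BName B) : smulN S g⁻¹ (smulN S g x) = x := by
  rw [← smulN_mul, inv_mul_cancel, smulN_one]

theorem smulN_smulN_inv (g : S.Γ) (x : BName B) : smulN S g (smulN S g⁻¹ x) = x := by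
  rw [← smulN_mul, mul_inv_cancel, smulN_one]

theorem eqB_smul (g : S.Γ) (x y : BName B) :
    eqB (smulN S g x) (smulN S g y) = S.act g (eqB x y) := by
  induction x generalizing y with
  | mk ι x a ih =>
    cases y with
    | mk κ y b =>
      simp only [smulN_mk, eqB, map_inf, map_iInf, map_himp, map_iSup, ih]

theorem memB_smul (g : S.Γ) (x y : BName B) :
    memB (smulN S g x) (smulN S g y) = S.act g (memB x y) := by
  cases y with
  | mk κ y b =>
    rw [smulN_mk, memB_mk, memB_mk]
    simp only [map_iSup, map_inf, eqB_smul]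

/-- The symmetry group of a name. -/
def symG (x : BName B) : Subgroup S.Γ where
  carrier := {g | eqB (smulN S g x) x = ⊤}
  one_mem' := by
    change eqB (smulN S 1 x) x = ⊤
    rw [smulN_one, eqB_refl]
  mul_mem' := by
    intro g h hg hh
    change eqB (smulN S (g * h) x) x = ⊤
    change eqB (smulN S g x) x = ⊤ at hg
    change eqB (smulN S h x) x = ⊤ at hh
    rw [smulN_mul]
    have h1 : eqB (smulN S g (smulN S h x)) (smulN S g x) = ⊤ := by
      rw [eqB_smul, hh]
      exact map_top _
    rw [eq_top_iff] at *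
    exact eqB.trans h1 hg
  inv_mem' := by
    intro g hg
    change eqB (smulN S g⁻¹ x) x = ⊤
    change eqB (smulN S g x) x = ⊤ at hg
    have h1 : eqB (smulN S g⁻¹ (smulN S g x)) (smulN S g⁻¹ x) = ⊤ := by
      rw [eqB_smul, hg]
      exact map_top _
    rw [smulN_inv_smulN] at h1
    rw [eqB_symm]
    exact h1

theorem mem_symG {g : S.Γ} {x : BName B} : g ∈ symG S x ↔ eqB (smulN S g x) x = ⊤ := Iff.rfl

/-- Hereditarily symmetric names. -/
def HS : BName B → Prop
  | BName.mk ι x b => S.good (symG S (BName.mk ι x b)) ∧ ∀ i, HS (x i)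

theorem HS_mk {ι : Type u} {x : ι → BName B} {b : ι → B} :
    HS S (BName.mk ι x b) ↔ S.good (symG S (BName.mk ι x b)) ∧ ∀ i, HS S (x i) := Iff.rfl

theorem HS.good {x : BName B} (h : HS S x) : S.good (symG S x) := by
  cases x with
  | mk ι x b => exact h.1

theorem symG_smul (g : S.Γ) (x : BName B) :
    symG S (smulN S g x) = (symG S x).map (MulAut.conj g).toMonoidHom := by
  ext h
  rw [Subgroup.mem_map]
  constructor
  · intro hh
    refine ⟨g⁻¹ * h * g, ?_, by simp [MulAut.conj_apply, mul_assoc]⟩
    rw [mem_symG] at hh ⊢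
    have h1 : smulN S (g⁻¹ * h * g) x = smulN S g⁻¹ (smulN S h (smulN S g x)) := by
      rw [smulN_mul, smulN_mul]
    have h2 : eqB (smulN S g⁻¹ (smulN S h (smulN S g x))) (smulN S g⁻¹ (smulN S g x)) = ⊤ := by
      rw [eqB_smul, hh]
      exact map_top _
    rw [smulN_inv_smulN] at h2
    rw [h1, h2]
  · rintro ⟨k, hk, rfl⟩
    rw [mem_symG] at hk ⊢
    have h1 : smulN S ((MulAut.conj g).toMonoidHom k) (smulN S g x) =
        smulN S g (smulN S k x) := by
      rw [← smulN_mul, ← smulN_mul]
      simp [MulAut.conj_apply]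
    rw [h1, eqB_smul, hk]
    exact map_top _

theorem HS_smul (g : S.Γ) {x : BName B} (h : HS S x) : HS S (smulN S g x) := by
  induction x with
  | mk ι x b ih =>
    rw [smulN_mk, HS_mk]
    refine ⟨?_, fun i => ih i (h.2 i)⟩
    rw [← smulN_mk, symG_smul]
    exact S.good_conj _ _ h.1

/-- The hereditarily symmetric names. -/
abbrev NS : Type (u + 1) := {x : BName B // HS S x}

variable {S}

/-- The action on hereditarily symmetric names. -/
def NS.smul (g : S.Γ) (x : NS S) : NS S := ⟨smulN S g x.1, HS_smul S g x.2⟩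

/-- The Boolean value of membership. -/
def mN (x y : NS S) : B := memB x.1 y.1

/-- The Boolean value of equality. -/
def eN (x y : NS S) : B := eqB x.1 y.1

theorem NS.inv_smul_smul (g : S.Γ) (x : NS S) : NS.smul g⁻¹ (NS.smul g x) = x :=
  Subtype.ext (smulN_inv_smulN S g x.1)

theorem NS.smul_inv_smul (g : S.Γ) (x : NS S) : NS.smul g (NS.smul g⁻¹ x) = x :=
  Subtype.ext (smulN_smulN_inv S g x.1)

theorem mN_smul (g : S.Γ) (x y : NS S) : mN (NS.smul g x) (NS.smul g y) = S.act g (mN x y) :=
  memB_smul S g x.1 y.1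

theorem eN_smul (g : S.Γ) (x y : NS S) : eN (NS.smul g x) (NS.smul g y) = S.act g (eN x y) :=
  eqB_smul S g x.1 y.1

/-- The action as an equivalence. -/
def NS.smulEquiv (g : S.Γ) : NS S ≃ NS S where
  toFun := NS.smul g
  invFun := NS.smul g⁻¹
  left_inv := NS.inv_smul_smul g
  right_inv := NS.smul_inv_smul g

theorem mN_eq_of_eN_top {x x' y y' : NS S} (h : eN x x' = ⊤) (h' : eN y y' = ⊤) :
    mN x y = mN x' y' := by
  have h1 : ∀ x x' y y' : NS S, eN x x' = ⊤ → eN y y' = ⊤ → mN x y ≤ mN x' y' := by
    intro x x' y y' h h'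
    have h2 : mN x y ≤ memB x.1 y'.1 :=
      memB_congr_right (le_top.trans (eq_top_iff.mp h')) le_rfl
    exact memB_congr_left (le_top.trans (eq_top_iff.mp h)) h2
  refine le_antisymm (h1 _ _ _ _ h h') (h1 _ _ _ _ ?_ ?_)
  · exact (eqB_symm _ _).trans h
  · exact (eqB_symm _ _).trans h'

theorem eN_eq_of_eN_top {x x' y y' : NS S} (h : eN x x' = ⊤) (h' : eN y y' = ⊤) :
    eN x y = eN x' y' := by
  have h1 : ∀ x x' y y' : NS S, eN x x' = ⊤ → eN y y' = ⊤ → eN x y ≤ eN x' y' := by
    intro x x' y y' h h'
    have h2 : eN x y ≤ eqB x'.1 y.1 :=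
      eqB.trans (eqB.symm (le_top.trans (eq_top_iff.mp h))) le_rfl
    exact eqB.trans h2 (le_top.trans (eq_top_iff.mp h'))
  refine le_antisymm (h1 _ _ _ _ h h') (h1 _ _ _ _ ?_ ?_)
  · exact (eqB_symm _ _).trans h
  · exact (eqB_symm _ _).trans h'

/-- The symmetry group of a hereditarily symmetric name. -/
def NS.sym (x : NS S) : Subgroup S.Γ := symG S x.1

theorem NS.good_sym (x : NS S) : S.good x.sym := HS.good S x.2

theorem NS.mem_sym {g : S.Γ} {x : NS S} : g ∈ x.sym ↔ eN (NS.smul g x) x = ⊤ := Iff.rfl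

/-! ### Extensionality for names with hereditarily symmetric members -/

variable (S) in
/-- All members of the name are hereditarily symmetric. -/
def PHS : BName B → Prop
  | BName.mk _ x _ => ∀ i, HS S (x i)

theorem HS.phs {x : BName B} (h : HS S x) : PHS S x := by
  cases x with
  | mk ι x b => exact h.2

theorem PHS_smul (g : S.Γ) {x : BName B} (h : PHS S x) : PHS S (smulN S g x) := by
  cases x with
  | mk ι x b => exact fun i => HS_smul S g (h i)

theorem eqB_extN {p : B} {x y : BName B} (hx : PHS S x) (hy : PHS S y)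
    (h1 : ∀ (z : NS S) (q : B), q ≤ p → q ≤ memB z.1 x → q ≤ memB z.1 y)
    (h2 : ∀ (z : NS S) (q : B), q ≤ p → q ≤ memB z.1 y → q ≤ memB z.1 x) : p ≤ eqB x y := by
  cases x with
  | mk ι x a =>
    cases y with
    | mk κ y b =>
      rw [eqB_mk, le_inf_iff]
      constructor
      · refine le_iInf fun i => himp_intro fun q hq hqa => ?_
        exact h1 ⟨x i, hx i⟩ _ hq (hqa.trans (memB_of_val x a i))
      · refine le_iInf fun j => himp_intro fun q hq hqb => ?_
        have h3 := h2 ⟨y j, hy j⟩ _ hq (hqb.trans (memB_of_val y b j))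
        rw [memB_mk] at h3
        refine iSup_elim h3 fun i r hr hri => ?_
        exact iSup_intro i (le_inf (hri.trans inf_le_left) (eqB.symm (hri.trans inf_le_right)))

theorem eqB_eq_top_of {x y : BName B} (hx : PHS S x) (hy : PHS S y)
    (h : ∀ z : NS S, memB z.1 x = memB z.1 y) : eqB x y = ⊤ := by
  rw [eq_top_iff]
  refine eqB_extN hx hy (fun z q _ hq => ?_) (fun z q _ hq => ?_)
  · rw [← h]
    exact hq
  · rw [h]
    exact hq

/-- A name with hereditarily symmetric members and an invariant membership function is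
hereditarily symmetric. -/
theorem HS_of_inv {ι : Type u} {x : ι → BName B} {b : ι → B} (hx : ∀ i, HS S (x i))
    {H : Subgroup S.Γ} (hH : S.good H)
    (hinv : ∀ g ∈ H, ∀ t : NS S, S.act g (memB (NS.smul g⁻¹ t).1 (BName.mk ι x b)) =
      memB t.1 (BName.mk ι x b)) : HS S (BName.mk ι x b) := by
  refine ⟨S.good_mono H _ ?_ hH, hx⟩
  intro g hg
  rw [mem_symG]
  have hp : PHS S (BName.mk ι x b) := hx
  apply eqB_eq_top_of (PHS_smul g hp) hp
  intro z
  rw [← hinv g hg z, ← memB_smul]
  congr 1
  exact (smulN_smulN_inv S g z.1).symm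

end Pool.Agent.Lib.SymModel
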