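import Pool.Agent.Lib.SymModel.Gen

/-!
# The two-valued model satisfies ZF
-/

set_option autoImplicit false

namespace Pool.Agent.Lib.SymModel

open Pool.Agent.MPa4e7db Pool.Agent.MP_5db68c_lc

universe u

variable {B : Type u} [CompleteBooleanAlgebra B] {S : SymSys B}

theorem val_rename (φ : Fml) : ∀ (f : ℕ → ℕ) (v : ℕ → NS S),
    val (φ.rename f) v = val φ (v ∘ f) := by
  induction φ with
  | mem i j => intro f v; rfl
  | eq i j => intro f v; rfl
  | neg φ ih => intro f v; simp only [Fml.rename, val, ih]
  | and φ ψ ih1 ih2 => intro f v; simp only [Fml.rename, val, ih1, ih2]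
  | all φ ih =>
    intro f v
    simp only [Fml.rename, val]
    refine iInf_congr fun x => ?_
    rw [ih, push_comp_lift]

/-! ### Natural numbers -/

theorem smulN_natN (g : S.Γ) (n : ℕ) : smulN S g (natN n) = natN n := by
  induction n with
  | zero =>
    change smulN S g emptyN = emptyN
    rw [emptyN, smulN_mk]
    congr 1
    · funext i; exact i.elim
    · funext i; exact i.elim
  | succ n ih =>
    change smulN S g (succN (natN n)) = succN (natN n)
    have h : ∀ x : BName B, smulN S g (succN x) = succN (smulN S g x) := by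
      intro x
      cases x with
      | mk ι x a =>
        rw [succN, smulN_mk, smulN_mk, succN]
        congr 1
        · funext o
          cases o <;> rfl
        · funext o
          cases o with
          | none => exact map_top _
          | some i => rfl
    rw [h, ih]

theorem good_of_fixed {x : BName B} (h : ∀ g : S.Γ, smulN S g x = x) : S.good (symG S x) := by
  have : symG S x = ⊤ := by
    rw [eq_top_iff]
    intro g _
    rw [mem_symG, h, eqB_refl]
  rw [this]
  exact S.good_top

theorem HS_natN (n : ℕ) : HS S (natN n : BName B) := by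
  induction n with
  | zero => exact ⟨good_of_fixed (fun g => smulN_natN g 0), fun i => i.elim⟩
  | succ n ih =>
    have h1 : S.good (symG S (natN (n + 1) : BName B)) :=
      good_of_fixed (fun g => smulN_natN g (n + 1))
    have h2 : ∀ x : BName B, HS S x → S.good (symG S (succN x)) → HS S (succN x) := by
      intro x hx hg
      cases x with
      | mk ι x a =>
        refine ⟨hg, fun o => ?_⟩
        cases o with
        | none => exact hx
        | some i => exact hx.2 i
    exact h2 _ ih h1

/-- The natural number `n` as a hereditarily symmetric name. -/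
def nN (n : ℕ) : NS S := ⟨natN n, HS_natN n⟩

theorem smulN_omegaN (g : S.Γ) : smulN S g omegaN = omegaN := by
  rw [omegaN, smulN_mk]
  congr 1
  · funext i
    exact smulN_natN g _
  · funext i
    exact map_top _

/-- The set of natural numbers. -/
def oN : NS S := ⟨omegaN, good_of_fixed smulN_omegaN, fun i => HS_natN _⟩

theorem mN_oN (t : NS S) : mN t oN = ⨆ n : ℕ, eN t (nN n) := memB_omegaN t.1

theorem mN_nN_succ (t : NS S) (n : ℕ) : mN t (nN (n + 1)) = mN t (nN n) ⊔ eN t (nN n) :=
  memB_succN _ _

namespace GenData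

variable (G : GenData S)

theorem exists_of_val {φ : Fml} {v : ℕ → ℕ}
    (h : G.Tr (⨆ x : NS S, val φ (push x fun i => G.e (v i)))) :
    ∃ x : G.Mdl, Sat φ (push x fun i => G.cls (v i)) := by
  rw [← Sat_ex, G.sat_iff, val_ex]
  exact h

/-- Separation in the model. -/
theorem m_sep (φ : Fml) (v : ℕ → G.Mdl) (a : G.Mdl) :
    ∃ b : G.Mdl, ∀ x : G.Mdl, x ∈ b ↔ x ∈ a ∧ Sat φ (push x v) := by
  let f : ℕ → ℕ := fun i => match i with
    | 0 => 0
    | i + 1 => i + 3
  let ψ : Fml := .all (fiff (.mem 0 1) (.and (.mem 0 2) (φ.rename f)))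
  let w : ℕ → ℕ := push (G.rep a) fun i => G.rep (v i)
  have h1 : G.Tr (⨆ x : NS S, val ψ (push x fun i => G.e (w i))) := by
    obtain ⟨b, hb⟩ := ax_sep φ (fun i => G.e (G.rep (v i))) (G.e (G.rep a))
    refine G.Tr_top.mono (le_iSup_of_le b ?_)
    simp only [ψ, val_all, val_iff, val_and, val_mem, val_rename]
    refine le_iInf fun t => ?_
    refine (iffB_eq_top ?_).ge
    have h2 := hb t
    have h3 : (push t (push b fun i => G.e (w i))) ∘ f =
        push t fun i => G.e (G.rep (v i)) := by
      funext i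
      cases i <;> rfl
    rw [h3]
    exact h2
  obtain ⟨b, hb⟩ := G.exists_of_val h1
  refine ⟨b, fun x => ?_⟩
  have h2 := hb x
  have h3 : Sat (fiff (.mem 0 1) (.and (.mem 0 2) (φ.rename f)))
      (push x (push b fun i => G.cls (w i))) := h2
  rw [Sat_iff, Sat_and, sat_rename] at h3
  have h4 : (push x (push b fun i => G.cls (w i))) ∘ f = push x v := by
    funext i
    cases i with
    | zero => rfl
    | succ i => exact G.cls_rep _
  rw [h4] at h3
  have h5 : G.cls (w 0) = a := G.cls_rep a
  have h6 : (x ∈ b ↔ x ∈ G.cls (w 0) ∧ Sat φ (push x v)) := h3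
  rw [h5] at h6
  exact h6

/-- Collection in the model. -/
theorem m_coll (φ : Fml) (v : ℕ → G.Mdl) (a : G.Mdl) :
    ∃ b : G.Mdl, ∀ x : G.Mdl, x ∈ a → (∃ y : G.Mdl, Sat φ (push y (push x v))) →
      ∃ y : G.Mdl, y ∈ b ∧ Sat φ (push y (push x v)) := by
  let f : ℕ → ℕ := fun i => match i with
    | 0 => 0
    | 1 => 1
    | i + 2 => i + 4
  let ψ : Fml := .all (fimp (.and (.mem 0 2) (fex (φ.rename f)))
    (fex (.and (.mem 0 2) (φ.rename f))))
  let w : ℕ → ℕ := push (G.rep a) fun i => G.rep (v i)
  have h1 : G.Tr (⨆ x : NS S, val ψ (push x fun i => G.e (w i))) := by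
    obtain ⟨b, hb⟩ := ax_coll φ (fun i => G.e (G.rep (v i))) (G.e (G.rep a))
    refine G.Tr_top.mono (le_iSup_of_le b ?_)
    simp only [ψ, val_all, val_imp, val_and, val_mem, val_rename, val_ex]
    refine le_iInf fun t => ?_
    rw [top_le_iff, himp_eq_top_iff]
    have h3 : ∀ y : NS S, (push y (push t (push b fun i => G.e (w i)))) ∘ f =
        push y (push t fun i => G.e (G.rep (v i))) := by
      intro y
      funext i
      rcases i with _ | _ | i <;> rfl
    simp only [h3]
    exact hb t
  obtain ⟨b, hb⟩ := G.exists_of_val h1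
  refine ⟨b, fun x hxa hxy => ?_⟩
  have h2 := hb x
  have h3 : Sat (fimp (.and (.mem 0 2) (fex (φ.rename f)))
    (fex (.and (.mem 0 2) (φ.rename f)))) (push x (push b fun i => G.cls (w i))) := h2
  rw [Sat_imp, Sat_and, Sat_ex, Sat_ex] at h3
  have h4 : ∀ y : G.Mdl, (push y (push x (push b fun i => G.cls (w i)))) ∘ f =
      push y (push x v) := by
    intro y
    funext i
    rcases i with _ | _ | i
    · rfl
    · rfl
    · exact G.cls_rep _
  simp only [Sat_and, sat_rename, h4] at h3
  have h5 : G.cls (w 0) = a := G.cls_rep a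
  refine h3 ⟨?_, hxy⟩
  change x ∈ G.cls (w 0)
  rw [h5]
  exact hxa

/-- The two-valued model satisfies the axioms of ZF. -/
theorem modelZF : ModelZF G.Mdl where
  extensionality a b h := by
    obtain ⟨a, rfl⟩ := G.cls_surj a
    obtain ⟨b, rfl⟩ := G.cls_surj b
    have h1 := (G.sat_iff (.all (fiff (.mem 0 1) (.mem 0 2))) (push a fun _ => b)).mp (by
      rw [Sat_all]
      intro x
      rw [Sat_iff]
      exact h x)
    rw [val_all] at h1
    simp only [val_iff, val_mem] at h1
    rw [G.cls_eq]
    exact h1.mono (ax_ext (G.e a) (G.e b))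
  foundation a h := by
    obtain ⟨a, rfl⟩ := G.cls_surj a
    have h1 := (G.sat_iff (fex (.mem 0 1)) (fun _ => a)).mp (by
      rw [Sat_ex]
      exact h)
    rw [val_ex] at h1
    have h2 : G.Tr (⨆ x : NS S, val (.and (.mem 0 1) (.all (fimp (.mem 0 1) (.neg (.mem 0 2)))))
        (push x fun _ => G.e a)) := by
      refine h1.mono ((ax_found (G.e a)).trans ?_)
      simp only [val_and, val_all, val_imp, val_neg, val_mem]
      exact le_rfl
    obtain ⟨x, hx⟩ := G.exists_of_val (v := fun _ => a) h2
    rw [Sat_and, Sat_all] at hx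
    refine ⟨x, hx.1, fun y hy => ?_⟩
    have h3 := hx.2 y
    rw [Sat_imp] at h3
    exact h3 hy
  pairing a b := by
    obtain ⟨a, rfl⟩ := G.cls_surj a
    obtain ⟨b, rfl⟩ := G.cls_surj b
    have h2 : G.Tr (⨆ x : NS S, val (.all (fiff (.mem 0 1) (for' (.eq 0 2) (.eq 0 3))))
        (push x fun i => G.e ((push a fun _ => b) i))) := by
      refine G.Tr_top.mono (le_iSup_of_le (NS.upair (G.e a) (G.e b)) ?_)
      simp only [val_all, val_iff, val_or, val_mem, val_eq]
      exact le_iInf fun t => (iffB_eq_top (mN_upair t _ _)).ge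
    obtain ⟨c, hc⟩ := G.exists_of_val h2
    refine ⟨c, fun x => ?_⟩
    have h3 := hc x
    rw [Sat_iff, Sat_or] at h3
    exact h3
  union a := by
    obtain ⟨a, rfl⟩ := G.cls_surj a
    have h2 : G.Tr (⨆ x : NS S, val (.all (fiff (.mem 0 1) (fex (.and (.mem 0 3) (.mem 1 0)))))
        (push x fun i => G.e ((fun _ => a) i))) := by
      obtain ⟨b, hb⟩ := ax_union (G.e a)
      refine G.Tr_top.mono (le_iSup_of_le b ?_)
      simp only [val_all, val_iff, val_ex, val_and, val_mem]
      exact le_iInf fun t => (iffB_eq_top (hb t)).ge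
    obtain ⟨c, hc⟩ := G.exists_of_val h2
    refine ⟨c, fun x => ?_⟩
    have h3 := hc x
    rw [Sat_iff, Sat_ex] at h3
    exact h3
  powerset a := by
    obtain ⟨a, rfl⟩ := G.cls_surj a
    have h2 : G.Tr (⨆ x : NS S, val (.all (fiff (.mem 0 1) (.all (fimp (.mem 0 1) (.mem 0 3)))))
        (push x fun i => G.e ((fun _ => a) i))) := by
      obtain ⟨b, hb⟩ := ax_power (G.e a)
      refine G.Tr_top.mono (le_iSup_of_le b ?_)
      simp only [val_all, val_iff, val_imp, val_mem]
      exact le_iInf fun t => (iffB_eq_top (hb t)).ge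
    obtain ⟨c, hc⟩ := G.exists_of_val h2
    refine ⟨c, fun x => ?_⟩
    have h3 := hc x
    rw [Sat_iff, Sat_all] at h3
    simp only [Sat_imp] at h3
    exact h3
  infinity := by
    have h2 : G.Tr (⨆ x : NS S, val (.and (fex (.and (.mem 0 1) (.all (.neg (.mem 0 1)))))
        (.all (fimp (.mem 0 1) (fex (.and (.mem 0 2)
          (.all (fiff (.mem 0 1) (for' (.mem 0 2) (.eq 0 2)))))))))
        (push x fun i => G.e ((fun _ => 0) i))) := by
      refine G.Tr_top.mono (le_iSup_of_le oN ?_)
      simp only [val_all, val_iff, val_or, val_mem, val_eq, val_and, val_imp, val_ex, val_neg]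
      refine le_inf ?_ ?_
      · refine le_iSup_of_le (nN 0) (le_inf ?_ ?_)
        · change ⊤ ≤ mN (nN 0) oN
          rw [mN_oN]
          exact le_iSup_of_le 0 (le_eqB_refl _ _)
        · refine le_iInf fun t => ?_
          change ⊤ ≤ (memB t.1 (natN 0))ᶜ
          have : memB t.1 (natN 0) = ⊥ := memB_emptyN _
          rw [this, compl_bot]
      · refine le_iInf fun n => himp_intro fun q _ hq => ?_
        have hq' : q ≤ mN n oN := hq
        rw [mN_oN] at hq'
        refine iSup_elim hq' fun k r hr hrk => ?_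
        refine iSup_intro (nN (k + 1)) (le_inf ?_ ?_)
        · change r ≤ mN (nN (k + 1)) oN
          rw [mN_oN]
          exact iSup_intro (k + 1) (le_eqB_refl _ _)
        · refine le_iInf fun t => ?_
          change r ≤ iffB (mN t (nN (k + 1))) (mN t n ⊔ eN t n)
          rw [mN_nN_succ]
          refine iffB_intro (fun s hs hs2 => ?_) (fun s hs hs2 => ?_)
          · refine sup_elim hs2 (fun x hx hx2 => ?_) (fun x hx hx2 => ?_)
            · exact (memB_congr_right (eqB.symm ((hx.trans hs).trans hrk)) hx2).trans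
                le_sup_left
            · exact (eqB.trans hx2 (eqB.symm ((hx.trans hs).trans hrk))).trans le_sup_right
          · refine sup_elim hs2 (fun x hx hx2 => ?_) (fun x hx hx2 => ?_)
            · exact (memB_congr_right ((hx.trans hs).trans hrk) hx2).trans le_sup_left
            · exact (eqB.trans hx2 ((hx.trans hs).trans hrk)).trans le_sup_right
    obtain ⟨w, hw⟩ := G.exists_of_val h2
    refine ⟨w, ?_⟩
    rw [Sat_and, Sat_ex, Sat_all] at hw
    simp only [Sat_and, Sat_all, Sat_neg, Sat_imp, Sat_ex, Sat_iff, Sat_or] at hw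
    exact hw
  separation φ v a := G.m_sep φ v a
  replacement φ v a h := by
    obtain ⟨b, hb⟩ := G.m_coll φ v a
    let f : ℕ → ℕ := fun i => match i with
      | 0 => 1
      | 1 => 0
      | i + 2 => i + 3
    obtain ⟨c, hc⟩ := G.m_sep (fex (.and (.mem 0 2) (φ.rename f))) (push a v) b
    refine ⟨c, fun y => ?_⟩
    rw [hc, Sat_ex]
    have h4 : ∀ x : G.Mdl, (push x (push y (push a v))) ∘ f = push y (push x v) := by
      intro x
      funext i
      rcases i with _ | _ | i <;> rfl
    simp only [Sat_and, sat_rename, h4]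
    constructor
    · rintro ⟨_, x, hx1, hx2⟩
      exact ⟨x, hx1, hx2⟩
    · rintro ⟨x, hxa, hx⟩
      refine ⟨?_, x, hxa, hx⟩
      obtain ⟨y', hy', hy''⟩ := hb x hxa ⟨y, hx⟩
      rw [(h x hxa).unique hx hy'']
      exact hy'

end GenData

end Pool.Agent.Lib.SymModel
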