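import Pool.Agent.Lib.SymModel.Val

/-!
# The axioms of ZF in the symmetric model, as Boolean values
-/

set_option autoImplicit false

namespace Pool.Agent.Lib.SymModel

open Pool.Agent.MPa4e7db Pool.Agent.MP_5db68c_lc

universe u

variable {B : Type u} [CompleteBooleanAlgebra B] {S : SymSys B}

/-- A name with hereditarily symmetric members whose membership function is defined by a formula
with hereditarily symmetric parameters is hereditarily symmetric. -/
theorem HS_of_val {ι : Type u} {x : ι → BName B} {b : ι → B} (hx : ∀ i, HS S (x i))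
    (ψ : Fml) (v : ℕ → NS S)
    (h : ∀ t : NS S, memB t.1 (BName.mk ι x b) = val ψ (push t v)) :
    HS S (BName.mk ι x b) := by
  obtain ⟨H, hH, hsym⟩ := good_sym_lt v (bd ψ)
  refine HS_of_inv hx hH fun g hg t => ?_
  rw [h, h, ← val_smul]
  apply val_eq_of_top
  intro i hi
  cases i with
  | zero =>
    change eqB (NS.smul g (NS.smul g⁻¹ t)).1 t.1 = ⊤
    rw [NS.smul_inv_smul]
    exact eqB_refl _
  | succ i => exact NS.mem_sym.mp (hsym g hg i (by omega))

/-- Extensionality. -/
theorem ax_ext (a b : NS S) : (⨅ x : NS S, iffB (mN x a) (mN x b)) ≤ eN a b := by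
  apply eqB_extN a.2.phs b.2.phs
  · intro z q hq hqz
    exact iffB_mp (iInf_mp hq z) hqz
  · intro z q hq hqz
    exact iffB_mpr (iInf_mp hq z) hqz

/-- Foundation. -/
theorem ax_found (a : NS S) : (⨆ x : NS S, mN x a) ≤
    ⨆ x : NS S, mN x a ⊓ ⨅ y : NS S, mN y x ⇨ (mN y a)ᶜ := by
  set R : B := ⨆ x : NS S, mN x a ⊓ ⨅ y : NS S, mN y x ⇨ (mN y a)ᶜ with hR
  have key : ∀ x : BName B, HS S x → ∀ p : B, p ≤ memB x a.1 → p ≤ Rᶜ → p ≤ ⊥ := by
    intro x
    induction x with
    | mk ι x b ih =>
      intro hx p hp hpR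
      set X : NS S := ⟨BName.mk ι x b, hx⟩ with hX
      have h1 : p ≤ ⨅ y : NS S, mN y X ⇨ (mN y a)ᶜ := by
        refine le_iInf fun y => himp_intro fun q hq hqy => compl_intro fun r hr hra => ?_
        have h2 : r ≤ memB y.1 (BName.mk ι x b) := hr.trans hqy
        rw [memB_mk] at h2
        rw [eq_bot_iff]
        refine iSup_elim h2 fun i s hs hsi => ?_
        refine ih i (hx.2 i) s ?_ ((hs.trans (hr.trans hq)).trans hpR)
        exact memB_congr_left (hsi.trans inf_le_right) (hs.trans hra)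
      exact compl_mp hpR (iSup_intro X (le_inf hp h1))
  refine iSup_le fun x => ?_
  by_contra hcon
  have h1 : mN x a ⊓ Rᶜ ≤ ⊥ := key x.1 x.2 _ inf_le_left inf_le_right
  exact hcon (by
    have h2 : Disjoint (mN x a) Rᶜ := disjoint_iff_inf_le.mpr h1
    rwa [disjoint_compl_right_iff] at h2)

/-- The pair. -/
def NS.upair (a b : NS S) : NS S := ⟨MPa4e7db.upair a.1 b.1, HS_of_val
  (by rintro ⟨i⟩; cases i; exacts [b.2, a.2]) (for' (.eq 0 1) (.eq 0 2))
  (push a (push b fun _ => a)) (by
    intro t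
    have h := memB_upair t.1 a.1 b.1
    rw [MPa4e7db.upair] at h
    rw [h, val_or]
    rfl)⟩

theorem mN_upair (t a b : NS S) : mN t (NS.upair a b) = eN t a ⊔ eN t b := memB_upair _ _ _

/-- The index type of a name. -/
def idx : BName B → Type u
  | BName.mk ι _ _ => ι

/-- The members of a name. -/
def elt : (y : BName B) → idx y → BName B
  | BName.mk _ x _ => x

/-- The values of a name. -/
def vl : (y : BName B) → idx y → B
  | BName.mk _ _ b => b

theorem memB_eq (t y : BName B) : memB t y = ⨆ j : idx y, vl y j ⊓ eqB t (elt y j) := by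
  cases y with
  | mk κ y b => rfl

theorem HS_elt {y : BName B} (hy : HS S y) (j : idx y) : HS S (elt y j) := by
  cases y with
  | mk κ y b => exact hy.2 j

/-- The union. -/
def unionN : BName B → BName B
  | BName.mk ι x b => BName.mk (Σ i : ι, idx (x i)) (fun p => elt (x p.1) p.2)
      (fun p => b p.1 ⊓ vl (x p.1) p.2)

theorem memB_unionN_mk (t : BName B) (ι : Type u) (x : ι → BName B) (b : ι → B) :
    memB t (unionN (BName.mk ι x b)) = ⨆ i, b i ⊓ memB t (x i) := by
  rw [unionN, memB_mk]
  apply le_antisymm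
  · refine iSup_le fun p => ?_
    refine le_iSup_of_le p.1 (le_inf (inf_le_left.trans inf_le_left) ?_)
    rw [memB_eq]
    exact le_iSup_of_le p.2 (le_inf (inf_le_left.trans inf_le_right) inf_le_right)
  · refine iSup_le fun i => ?_
    rw [memB_eq, inf_iSup_eq]
    refine iSup_le fun j => ?_
    refine le_iSup_of_le ⟨i, j⟩ ?_
    rw [inf_assoc]

theorem memN_unionN (t a : NS S) : memB t.1 (unionN a.1) = ⨆ y : NS S, mN y a ⊓ mN t y := by
  obtain ⟨⟨ι, x, b⟩, ha⟩ := a
  rw [memB_unionN_mk]
  apply le_antisymm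
  · refine iSup_le fun i => ?_
    refine le_iSup_of_le ⟨x i, ha.2 i⟩ ?_
    exact le_inf (inf_le_left.trans (memB_of_val x b i)) inf_le_right
  · refine iSup_le fun y => ?_
    have h1 : mN y ⟨BName.mk ι x b, ha⟩ ⊓ mN t y ≤ ⨆ j, b j ⊓ eqB y.1 (x j) := inf_le_left
    refine iSup_elim h1 fun i q hq hqi => ?_
    refine le_iSup_of_le i (le_inf (hqi.trans inf_le_left) ?_)
    exact memB_congr_right (hqi.trans inf_le_right) (hq.trans inf_le_right)

/-- Union. -/
theorem ax_union (a : NS S) : ∃ b : NS S, ∀ t : NS S, mN t b = ⨆ y : NS S, mN y a ⊓ mN t y := by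
  obtain ⟨⟨ι, x, b⟩, ha⟩ := a
  refine ⟨⟨unionN (BName.mk ι x b), ?_⟩, fun t => memN_unionN t ⟨BName.mk ι x b, ha⟩⟩
  rw [unionN]
  refine HS_of_val (fun p => HS_elt (ha.2 p.1) p.2) (fex (.and (.mem 0 2) (.mem 1 0)))
    (fun _ => ⟨BName.mk ι x b, ha⟩) fun t => ?_
  have h := memN_unionN t ⟨BName.mk ι x b, ha⟩
  rw [unionN] at h
  rw [h, val_ex]
  rfl

/-- Separation. -/
theorem ax_sep (φ : Fml) (v : ℕ → NS S) (a : NS S) :
    ∃ b : NS S, ∀ t : NS S, mN t b = mN t a ⊓ val φ (push t v) := by
  obtain ⟨⟨ι, x, b⟩, ha⟩ := a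
  have hmem : ∀ t : NS S, memB t.1 (BName.mk ι x fun i => b i ⊓
      val φ (push (⟨x i, ha.2 i⟩ : NS S) v)) =
      mN t ⟨BName.mk ι x b, ha⟩ ⊓ val φ (push t v) := by
    intro t
    rw [memB_mk]
    change _ = (⨆ j, b j ⊓ eqB t.1 (x j)) ⊓ val φ (push t v)
    apply le_antisymm
    · refine iSup_le fun i => le_inf ?_ ?_
      · exact le_iSup_of_le i (le_inf (inf_le_left.trans inf_le_left) inf_le_right)
      · refine val_congr φ (fun j _ => ?_) (inf_le_left.trans inf_le_right)
        cases j with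
        | zero => exact eqB.symm inf_le_right
        | succ j => exact le_eqB_refl _ _
    · have h1 : (⨆ j, b j ⊓ eqB t.1 (x j)) ⊓ val φ (push t v) ≤ ⨆ j, b j ⊓ eqB t.1 (x j) :=
        inf_le_left
      refine iSup_elim h1 fun i q hq hqi => ?_
      refine le_iSup_of_le i (le_inf (le_inf (hqi.trans inf_le_left) ?_)
        (hqi.trans inf_le_right))
      refine val_congr φ (fun j _ => ?_) (hq.trans inf_le_right)
      cases j with
      | zero => exact hqi.trans inf_le_right
      | succ j => exact le_eqB_refl _ _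
  refine ⟨⟨_, HS_of_val (fun i => ha.2 i) (.and (.mem 0 (bd φ + 1)) φ)
    (Function.update v (bd φ) ⟨BName.mk ι x b, ha⟩) fun t => ?_⟩, hmem⟩
  rw [hmem, val_and, val_mem]
  congr 1
  · rw [push_succ, Function.update_self]
    rfl
  · apply val_eq_of_top
    intro i hi
    cases i with
    | zero => exact eqB_refl _
    | succ i =>
      rw [push_succ, push_succ, Function.update_of_ne (by omega)]
      exact eqB_refl _

/-- Power set. -/
theorem ax_power (a : NS S) :
    ∃ b : NS S, ∀ t : NS S, mN t b = ⨅ y : NS S, mN y t ⇨ mN y a := by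
  obtain ⟨⟨ι, x, b⟩, ha⟩ := a
  set A : NS S := ⟨BName.mk ι x b, ha⟩ with hA
  let J : Type u := {f : ι → B // (∀ i, f i ≤ b i) ∧ HS S (BName.mk ι x f)}
  have hmem : ∀ t : NS S, memB t.1 (BName.mk J (fun f => BName.mk ι x f.1) fun _ => ⊤) =
      ⨅ y : NS S, mN y t ⇨ mN y A := by
    intro t
    rw [memB_mk]
    apply le_antisymm
    · refine iSup_le fun f => le_iInf fun y => himp_intro fun q hq hqy => ?_
      have h1 : q ≤ memB y.1 (BName.mk ι x f.1) :=
        memB_congr_right (hq.trans inf_le_right) hqy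
      rw [memB_mk] at h1
      refine iSup_elim h1 fun i r hr hri => ?_
      exact iSup_intro i (le_inf ((hri.trans inf_le_left).trans (f.2.1 i))
        (hri.trans inf_le_right))
    · set p : B := ⨅ y : NS S, mN y t ⇨ mN y A with hp
      let f : ι → B := fun i => b i ⊓ memB (x i) t.1
      have hf : ∀ z : NS S, memB z.1 (BName.mk ι x f) = mN z A ⊓ mN z t := by
        intro z
        rw [memB_mk]
        apply le_antisymm
        · refine iSup_le fun i => le_inf ?_ ?_
          · exact iSup_intro i (le_inf (inf_le_left.trans inf_le_left) inf_le_right)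
          · exact memB_congr_left (eqB.symm inf_le_right) (inf_le_left.trans inf_le_right)
        · have h1 : mN z A ⊓ mN z t ≤ ⨆ j, b j ⊓ eqB z.1 (x j) := inf_le_left
          refine iSup_elim h1 fun i q hq hqi => ?_
          refine iSup_intro i (le_inf (le_inf (hqi.trans inf_le_left) ?_)
            (hqi.trans inf_le_right))
          exact memB_congr_left (hqi.trans inf_le_right) (hq.trans inf_le_right)
      have hfHS : HS S (BName.mk ι x f) := by
        refine HS_of_val (fun i => ha.2 i) (.and (.mem 0 1) (.mem 0 2)) (push A fun _ => t)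
          fun z => ?_
        rw [hf]
        rfl
      refine iSup_intro ⟨f, fun i => inf_le_left, hfHS⟩ (le_inf le_top ?_)
      change p ≤ eqB t.1 (BName.mk ι x f)
      apply eqB_extN t.2.phs hfHS.phs
      · intro z q hq hqz
        rw [hf]
        exact le_inf (himp_mp (iInf_mp hq z) hqz) hqz
      · intro z q hq hqz
        rw [hf] at hqz
        exact hqz.trans inf_le_right
  refine ⟨⟨_, HS_of_val (fun f : J => f.2.2) (.all (fimp (.mem 0 1) (.mem 0 2)))
    (fun _ => A) fun t => ?_⟩, hmem⟩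
  rw [hmem, val_all]
  simp only [val_imp]
  rfl

/-- Collection. -/
theorem ax_coll (φ : Fml) (v : ℕ → NS S) (a : NS S) :
    ∃ b : NS S, ∀ x : NS S, mN x a ⊓ (⨆ y : NS S, val φ (push y (push x v))) ≤
      ⨆ y : NS S, mN y b ⊓ val φ (push y (push x v)) := by
  classical
  obtain ⟨⟨ι, x, b⟩, ha⟩ := a
  let X : ι → NS S := fun i => ⟨x i, ha.2 i⟩
  let d : NS S := ⟨BName.mk ι x b, ha⟩
  let y : ι → B → NS S := fun i c =>
    if h : ∃ y : NS S, val φ (push y (push (X i) v)) = c then h.choose else d
  have hy : ∀ i (z : NS S), val φ (push (y i (val φ (push z (push (X i) v)))) (push (X i) v)) =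
      val φ (push z (push (X i) v)) := by
    intro i z
    have h : ∃ y : NS S, val φ (push y (push (X i) v)) = val φ (push z (push (X i) v)) := ⟨z, rfl⟩
    simp only [y]
    rw [dif_pos h]
    exact h.choose_spec
  let J : Type u := S.Γ × ι × B
  let Y : J → NS S := fun j => NS.smul j.1 (y j.2.1 j.2.2)
  have hHS : HS S (BName.mk J (fun j => (Y j).1) fun _ => ⊤) := by
    refine HS_of_inv (fun j => (Y j).2) S.good_top fun g _ t => ?_
    rw [memB_mk, memB_mk, map_iSup]
    apply le_antisymm
    · refine iSup_le fun j => ?_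
      refine le_iSup_of_le (g * j.1, j.2) (le_inf le_top ?_)
      rw [map_inf]
      refine inf_le_right.trans ?_
      rw [← eqB_smul]
      have h1 : smulN S g (NS.smul g⁻¹ t).1 = t.1 := smulN_smulN_inv S g t.1
      have h2 : smulN S g (Y j).1 = (Y (g * j.1, j.2)).1 := (smulN_mul S g j.1 _).symm
      rw [h1, h2]
    · refine iSup_le fun j => ?_
      refine le_iSup_of_le (g⁻¹ * j.1, j.2) ?_
      rw [map_inf, map_top]
      refine le_inf le_top ?_
      rw [← eqB_smul]
      have h1 : smulN S g (NS.smul g⁻¹ t).1 = t.1 := smulN_smulN_inv S g t.1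
      have h2 : smulN S g (Y (g⁻¹ * j.1, j.2)).1 = (Y j).1 := by
        change smulN S g (smulN S (g⁻¹ * j.1) _) = smulN S j.1 _
        rw [← smulN_mul, mul_inv_cancel_left]
      rw [h1, h2]
      exact inf_le_right
  refine ⟨⟨_, hHS⟩, fun z => ?_⟩
  have h1 : mN z d ⊓ (⨆ y : NS S, val φ (push y (push z v))) ≤ ⨆ j, b j ⊓ eqB z.1 (x j) :=
    inf_le_left
  refine iSup_elim h1 fun i q hq hqi => ?_
  refine iSup_elim (hq.trans inf_le_right) fun w r hr hrw => ?_
  have hzi : r ≤ eN z (X i) := (hr.trans hqi).trans inf_le_right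
  have h2 : r ≤ val φ (push w (push (X i) v)) := by
    refine val_congr φ (fun j _ => ?_) hrw
    rcases j with _ | _ | j
    · exact le_eqB_refl _ _
    · exact hzi
    · exact le_eqB_refl _ _
  rw [← hy] at h2
  refine iSup_intro (y i (val φ (push w (push (X i) v)))) (le_inf ?_ ?_)
  · refine iSup_intro (1, i, val φ (push w (push (X i) v))) (le_inf le_top ?_)
    have h3 : (Y (1, i, val φ (push w (push (X i) v)))).1 =
        (y i (val φ (push w (push (X i) v)))).1 := smulN_one S _
    change r ≤ eqB _ (Y (1, i, val φ (push w (push (X i) v)))).1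
    rw [h3]
    exact le_eqB_refl _ _
  · refine val_congr φ (fun j _ => ?_) h2
    rcases j with _ | _ | j
    · exact le_eqB_refl _ _
    · exact eqB.symm hzi
    · exact le_eqB_refl _ _

end Pool.Agent.Lib.SymModel
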