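import Pool.Agent.Lib.SymModel.Sym

/-!
# Boolean values of first-order formulas in the symmetric model
-/

set_option autoImplicit false

namespace Pool.Agent.Lib.SymModel

open Pool.Agent.MPa4e7db Pool.Agent.MP_5db68c_lc

universe u

variable {B : Type u} [CompleteBooleanAlgebra B] {S : SymSys B}

/-- The Boolean value of a formula in the symmetric model. -/
def val : Fml → (ℕ → NS S) → B
  | .mem i j, v => mN (v i) (v j)
  | .eq i j, v => eN (v i) (v j)
  | .neg φ, v => (val φ v)ᶜ
  | .and φ ψ, v => val φ v ⊓ val ψ v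
  | .all φ, v => ⨅ x : NS S, val φ (push x v)

/-- All free variables of the formula are smaller than this number. -/
def bd : Fml → ℕ
  | .mem i j => max i j + 1
  | .eq i j => max i j + 1
  | .neg φ => bd φ
  | .and φ ψ => max (bd φ) (bd ψ)
  | .all φ => bd φ - 1

theorem val_congr (φ : Fml) : ∀ {p : B} {v w : ℕ → NS S}, (∀ i < bd φ, p ≤ eN (v i) (w i)) →
    p ≤ val φ v → p ≤ val φ w := by
  induction φ with
  | mem i j =>
    intro p v w h h1
    have hi : p ≤ eN (v i) (w i) := h i (by simp [bd])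
    have hj : p ≤ eN (v j) (w j) := h j (by simp [bd])
    exact memB_congr_left hi (memB_congr_right hj h1)
  | eq i j =>
    intro p v w h h1
    have hi : p ≤ eN (v i) (w i) := h i (by simp [bd])
    have hj : p ≤ eN (v j) (w j) := h j (by simp [bd])
    exact eqB.trans (eqB.trans (eqB.symm hi) h1) hj
  | neg φ ih =>
    intro p v w h h1
    refine compl_intro fun q hq hq2 => ?_
    have h2 : q ≤ val φ v := ih (fun i hi => eqB.symm (hq.trans (h i hi))) hq2
    rw [eq_bot_iff]
    exact compl_mp (hq.trans h1) h2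
  | and φ ψ ih1 ih2 =>
    intro p v w h h1
    have h1' : p ≤ val φ v ⊓ val ψ v := h1
    refine le_inf ?_ ?_
    · exact ih1 (fun i hi => h i (lt_of_lt_of_le hi (le_max_left _ _))) (h1'.trans inf_le_left)
    · exact ih2 (fun i hi => h i (lt_of_lt_of_le hi (le_max_right _ _))) (h1'.trans inf_le_right)
  | all φ ih =>
    intro p v w h h1
    refine le_iInf fun x => ih (fun i hi => ?_) (iInf_mp h1 x)
    cases i with
    | zero => exact le_eqB_refl _ _
    | succ i =>
      refine h i ?_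
      have : bd (.all φ) = bd φ - 1 := rfl
      omega

theorem val_eq_of_top (φ : Fml) {v w : ℕ → NS S} (h : ∀ i < bd φ, eN (v i) (w i) = ⊤) :
    val φ v = val φ w := by
  apply le_antisymm
  · exact val_congr φ (fun i hi => by rw [h i hi]; exact le_top) le_rfl
  · exact val_congr φ (fun i hi => by
      have h2 : eN (w i) (v i) = ⊤ := (eqB_symm _ _).trans (h i hi)
      rw [h2]; exact le_top) le_rfl

theorem val_smul (φ : Fml) (g : S.Γ) : ∀ v : ℕ → NS S,
    val φ (fun i => NS.smul g (v i)) = S.act g (val φ v) := by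
  induction φ with
  | mem i j => intro v; exact mN_smul g _ _
  | eq i j => intro v; exact eN_smul g _ _
  | neg φ ih =>
    intro v
    simp only [val, ih, map_compl]
  | and φ ψ ih1 ih2 =>
    intro v
    simp only [val, ih1, ih2, map_inf]
  | all φ ih =>
    intro v
    simp only [val, map_iInf]
    rw [← (NS.smulEquiv g).iInf_comp]
    congr 1
    funext x
    rw [← ih]
    congr 1
    funext i
    cases i <;> rfl

theorem val_sym (φ : Fml) {g : S.Γ} {v : ℕ → NS S} (h : ∀ i < bd φ, g ∈ (v i).sym) :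
    S.act g (val φ v) = val φ v := by
  rw [← val_smul]
  exact val_eq_of_top φ (fun i hi => NS.mem_sym.mp (h i hi))

/-- The finite intersection of the symmetry groups of the first parameters is good. -/
theorem good_sym_lt (v : ℕ → NS S) (n : ℕ) :
    ∃ H : Subgroup S.Γ, S.good H ∧ ∀ g ∈ H, ∀ i < n, g ∈ (v i).sym := by
  induction n with
  | zero => exact ⟨⊤, S.good_top, fun _ _ i hi => absurd hi (Nat.not_lt_zero i)⟩
  | succ n ih =>
    obtain ⟨H, hH, h⟩ := ih
    refine ⟨H ⊓ (v n).sym, S.good_inf _ _ hH (v n).good_sym, fun g hg i hi => ?_⟩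
    rcases Nat.lt_succ_iff_lt_or_eq.mp hi with h1 | rfl
    · exact h g hg.1 i h1
    · exact hg.2

/-! ### Derived connectives -/

/-- Implication. -/
def fimp (φ ψ : Fml) : Fml := .neg (.and φ (.neg ψ))

/-- Disjunction. -/
def for' (φ ψ : Fml) : Fml := .neg (.and (.neg φ) (.neg ψ))

/-- Equivalence. -/
def fiff (φ ψ : Fml) : Fml := .and (fimp φ ψ) (fimp ψ φ)

/-- Existential quantifier. -/
def fex (φ : Fml) : Fml := .neg (.all (.neg φ))

theorem val_mem (i j : ℕ) (v : ℕ → NS S) : val (.mem i j) v = mN (v i) (v j) := rfl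

theorem val_eq (i j : ℕ) (v : ℕ → NS S) : val (.eq i j) v = eN (v i) (v j) := rfl

theorem val_neg (φ : Fml) (v : ℕ → NS S) : val (.neg φ) v = (val φ v)ᶜ := rfl

theorem val_and (φ ψ : Fml) (v : ℕ → NS S) : val (.and φ ψ) v = val φ v ⊓ val ψ v := rfl

theorem val_all (φ : Fml) (v : ℕ → NS S) : val (.all φ) v = ⨅ x : NS S, val φ (push x v) := rfl

theorem val_imp (φ ψ : Fml) (v : ℕ → NS S) : val (fimp φ ψ) v = val φ v ⇨ val ψ v := by
  simp only [fimp, val, compl_inf, compl_compl]
  rw [himp_eq, sup_comm]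

theorem val_or (φ ψ : Fml) (v : ℕ → NS S) : val (for' φ ψ) v = val φ v ⊔ val ψ v := by
  simp only [for', val, compl_inf, compl_compl]

theorem val_iff (φ ψ : Fml) (v : ℕ → NS S) : val (fiff φ ψ) v = iffB (val φ v) (val ψ v) := by
  simp only [fiff, val_and, val_imp, iffB]

theorem val_ex (φ : Fml) (v : ℕ → NS S) : val (fex φ) v = ⨆ x : NS S, val φ (push x v) := by
  simp only [fex, val, compl_iInf, compl_compl]

section

variable {M : Type u} [Membership M M]

theorem Sat_mem (i j : ℕ) (v : ℕ → M) : Sat (.mem i j) v ↔ v i ∈ v j := Iff.rfl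

theorem Sat_eq (i j : ℕ) (v : ℕ → M) : Sat (.eq i j) v ↔ v i = v j := Iff.rfl

theorem Sat_neg (φ : Fml) (v : ℕ → M) : Sat (.neg φ) v ↔ ¬ Sat φ v := Iff.rfl

theorem Sat_and (φ ψ : Fml) (v : ℕ → M) : Sat (.and φ ψ) v ↔ Sat φ v ∧ Sat ψ v := Iff.rfl

theorem Sat_all (φ : Fml) (v : ℕ → M) : Sat (.all φ) v ↔ ∀ x : M, Sat φ (push x v) := Iff.rfl

theorem Sat_imp (φ ψ : Fml) (v : ℕ → M) : Sat (fimp φ ψ) v ↔ (Sat φ v → Sat ψ v) := by
  simp only [fimp, Sat]
  tauto

theorem Sat_or (φ ψ : Fml) (v : ℕ → M) : Sat (for' φ ψ) v ↔ (Sat φ v ∨ Sat ψ v) := by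
  simp only [for', Sat]
  tauto

theorem Sat_iff (φ ψ : Fml) (v : ℕ → M) : Sat (fiff φ ψ) v ↔ (Sat φ v ↔ Sat ψ v) := by
  simp only [fiff, Sat_and, Sat_imp]
  tauto

theorem Sat_ex (φ : Fml) (v : ℕ → M) : Sat (fex φ) v ↔ ∃ x : M, Sat φ (push x v) := by
  simp only [fex, Sat, not_forall, not_not]

end

@[simp] theorem push_zero {M : Type u} (x : M) (v : ℕ → M) : push x v 0 = x := rfl

@[simp] theorem push_succ {M : Type u} (x : M) (v : ℕ → M) (n : ℕ) : push x v (n + 1) = v n := rfl

@[simp] theorem push_one {M : Type u} (x : M) (v : ℕ → M) : push x v 1 = v 0 := rfl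

@[simp] theorem push_two {M : Type u} (x : M) (v : ℕ → M) : push x v 2 = v 1 := rfl

@[simp] theorem push_three {M : Type u} (x : M) (v : ℕ → M) : push x v 3 = v 2 := rfl

@[simp] theorem push_four {M : Type u} (x : M) (v : ℕ → M) : push x v 4 = v 3 := rfl

@[simp] theorem push_five {M : Type u} (x : M) (v : ℕ → M) : push x v 5 = v 4 := rfl

end Pool.Agent.Lib.SymModel
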